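import Pool.Agent.H74.OLP.Targets

/-!
# Rows CWK, SHC, CSI, ARI, PAR, KE1, KE2 of olp
-/

set_option autoImplicit false
set_option linter.unusedSectionVars false
open scoped Classical
open Finset Pool.Agent.H74.OLP

namespace Pool.Agent.H91.OLP

theorem pf_CWK : T_CWK := by
  intro F T n c hc
  obtain ⟨p, -, h2, h3⟩ := seg T (fun i : ℕ => c i) 0 n (Nat.zero_le n) (fun i _ _ => by
    apply (hc.adj _ _).2
    right
    have : (((i + 1 : ℕ) : ℤ) - (i : ℤ) - 1) = 0 := by push_cast; ring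
    rw [this]
    exact dvd_zero _)
  have e0 : c ((0 : ℕ) : ℤ) = c 0 := by rw [Nat.cast_zero]
  have en : c (n : ℤ) = c 0 := by
    rw [hc.eqv]
    rw [sub_zero]
  refine ⟨p.copy e0 en, ?_, ?_⟩
  · intro x hx
    rw [SimpleGraph.Walk.support_copy] at hx
    obtain ⟨i, -, -, rfl⟩ := h3 x hx
    exact ⟨i, rfl⟩
  · intro D
    rw [ws_copy, h2 D]
    unfold fs cs
    rw [Finset.range_eq_Ico]
    apply Finset.sum_congr rfl
    intro i _
    push_cast
    rfl

theorem pf_SHC (h1 : T_MCW) (h2 : T_MKC) : T_SHC := by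
  intro F T D X w hw hSh hN
  obtain ⟨m, u, hm3, hWf, hum, hsum, hX, hinj, hadj, -⟩ := h1 F T D X hSh.1 hN
  have hwm : w ≤ m := by
    by_contra hlt
    rw [not_le] at hlt
    obtain ⟨p, hp1, hp2, -⟩ := seg T u 0 m (Nat.zero_le m) (fun i _ hi => hWf i hi)
    have h3 := hSh.2 (u 0) (p.copy rfl hum) (by rw [SimpleGraph.Walk.length_copy, hp1]; omega)
    rw [ws_copy, hp2 D, hsum] at h3
    exact one_ne_zero h3
  have hback : ∀ j, j + 1 = m → T.Adj (u j) (u 0) := by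
    intro j hj
    have := hWf j (by omega)
    rw [hj, hum] at this
    exact this
  obtain ⟨c, hc, hc1, hc2, hc3⟩ := h2 F T m u (by omega) hinj (by
    intro i hi j hj
    constructor
    · intro h
      rcases lt_trichotomy i j with hij | hij | hij
      · rcases hadj i hi j hj hij h with h4 | h4
        · exact Or.inl h4
        · exact Or.inr (Or.inr (Or.inl h4))
      · rw [hij] at h
        exact absurd h (T.irrefl)
      · rcases hadj j hj i hi hij h.symm with h4 | h4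
        · exact Or.inr (Or.inl h4)
        · exact Or.inr (Or.inr (Or.inr h4))
    · rintro (h | h | ⟨h, h'⟩ | ⟨h, h'⟩)
      · rw [h]; exact hWf i hi
      · rw [h]; exact (hWf j hj).symm
      · rw [h]; exact (hback j h').symm
      · rw [h]; exact hback i h')
  refine ⟨m, c, hc, hwm, ?_, ?_⟩
  · intro i
    obtain ⟨j, hj, hcj⟩ := hc2 i
    rw [hcj]
    exact hX j hj.le
  · rw [hc3 D]
    obtain ⟨k, rfl⟩ : ∃ k, m = k + 1 := ⟨m - 1, by omega⟩
    rw [fs_succ D u (Nat.zero_le k), hum] at hsum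
    rw [Nat.add_sub_cancel]
    exact hsum

theorem cs_shift {F : Type} {T : SimpleGraph F} {n : ℕ} {c : ℤ → F} (hc : ICyc T n c)
    (D : F → F → R) (a : ℤ) : cs D n (fun i => c (i + a)) = cs D n c := by
  have hper : ∀ i : ℤ, c (i + n) = c i := by
    intro i
    rw [hc.eqv]
    exact ⟨1, by ring⟩
  have hstep : ∀ a : ℤ, cs D n (fun i => c (i + (a + 1))) = cs D n (fun i => c (i + a)) := by
    intro a
    set g : ℕ → R := fun k => D (c ((k : ℤ) + a)) (c ((k : ℤ) + a + 1)) with hg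
    have e1 : cs D n (fun i => c (i + a)) = ∑ k ∈ Finset.range n, g k := by
      unfold cs
      apply Finset.sum_congr rfl
      intro k _
      show D (c ((k : ℤ) + a)) (c ((k : ℤ) + 1 + a)) = D (c ((k : ℤ) + a)) (c ((k : ℤ) + a + 1))
      rw [show (k : ℤ) + 1 + a = (k : ℤ) + a + 1 by ring]
    have e2 : cs D n (fun i => c (i + (a + 1))) = ∑ k ∈ Finset.range n, g (k + 1) := by
      unfold cs
      apply Finset.sum_congr rfl
      intro k _
      show D (c ((k : ℤ) + (a + 1))) (c ((k : ℤ) + 1 + (a + 1))) =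
        D (c (((k + 1 : ℕ) : ℤ) + a)) (c (((k + 1 : ℕ) : ℤ) + a + 1))
      push_cast
      rw [show (k : ℤ) + (a + 1) = (k : ℤ) + 1 + a by ring,
        show (k : ℤ) + 1 + (a + 1) = (k : ℤ) + 1 + a + 1 by ring]
    have e3 : g n = g 0 := by
      show D (c ((n : ℤ) + a)) (c ((n : ℤ) + a + 1)) =
        D (c (((0 : ℕ) : ℤ) + a)) (c (((0 : ℕ) : ℤ) + a + 1))
      rw [show (n : ℤ) + a = a + n by ring, hper, show a + (n : ℤ) + 1 = a + 1 + n by ring, hper]
      simp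
    have e4 := Finset.sum_range_succ' g n
    have e5 := Finset.sum_range_succ g n
    rw [e1, e2]
    rw [e5, e3] at e4
    exact (add_right_cancel e4).symm
  induction a using Int.induction_on with
  | zero => simp
  | succ k ih => rw [hstep, ih]
  | pred k ih =>
    have := hstep (-(k : ℤ) - 1)
    rw [sub_add_cancel] at this
    rw [← this, ih]

theorem pf_CSI : T_CSI := by
  intro F T n c hc a
  have hA : ICyc T n (fun i => c (i + a)) := by
    refine ⟨hc.n4, ?_, ?_⟩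
    · intro i j
      show c (i + a) = c (j + a) ↔ _
      rw [hc.eqv, add_sub_add_right_eq_sub]
    · intro i j
      show T.Adj (c (i + a)) (c (j + a)) ↔ _
      rw [hc.adj, add_sub_add_right_eq_sub, add_sub_add_right_eq_sub]
  refine ⟨⟨hA, fun D => cs_shift hc D a⟩, ⟨hc.n4, ?_, ?_⟩, ?_⟩
  · intro i j
    show c (a - i) = c (a - j) ↔ _
    rw [hc.eqv, show a - i - (a - j) = -(i - j) by ring, dvd_neg]
  · intro i j
    show T.Adj (c (a - i)) (c (a - j)) ↔ _
    rw [hc.adj, show a - i - (a - j) - 1 = j - i - 1 by ring,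
      show a - j - (a - i) - 1 = i - j - 1 by ring, or_comm]
  · intro D hD
    set f : ℕ → R := fun i => D (c ((i : ℤ) + (a - n))) (c ((i : ℤ) + 1 + (a - n))) with hf
    have e1 : cs D n (fun i => c (a - i)) = ∑ i ∈ Finset.range n, f (n - 1 - i) := by
      unfold cs
      apply Finset.sum_congr rfl
      intro i hi
      rw [Finset.mem_range] at hi
      show D (c (a - (i : ℤ))) (c (a - ((i : ℤ) + 1))) =
        D (c (((n - 1 - i : ℕ) : ℤ) + (a - n))) (c (((n - 1 - i : ℕ) : ℤ) + 1 + (a - n)))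
      have e2 : ((n - 1 - i : ℕ) : ℤ) = (n : ℤ) - 1 - i := by omega
      rw [e2, show (n : ℤ) - 1 - i + (a - n) = a - (i + 1) by ring,
        show (n : ℤ) - 1 - i + 1 + (a - n) = a - i by ring]
      exact hD _ _
    rw [e1, Finset.sum_range_reflect]
    exact cs_shift hc D (a - n)

theorem ari_aux (p : ℕ → ℕ) (hp : ∀ i, 1 ≤ i → i < 20 → 1 ≤ p i)
    (h1 : ∀ i, 5 ≤ i → i + 5 ≤ 20 → Even ((p i : ℤ) - 1 - (if p (i - 1) = 1 then 1 else 0) -
      (if p (i + 1) = 1 then 1 else 0)))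
    (h2 : ∀ i, 5 ≤ i → i + 6 ≤ 20 → 2 ≤ p i → 2 ≤ p (i + 1) →
      Even ((p i : ℤ) + p (i + 1) - 3 - (if p (i - 1) = 1 then 1 else 0) -
      (if p (i + 2) = 1 then 1 else 0))) :
    ∀ j, 5 ≤ j → j + 6 ≤ 20 → p j = 1 ∨ p (j + 1) = 1 := by
  intro j hj5 hj6
  by_contra hcon
  rw [not_or] at hcon
  have a1 := hp j (by omega) (by omega)
  have a2 := hp (j + 1) (by omega) (by omega)
  have e1 := h1 j hj5 (by omega)
  have e2 := h1 (j + 1) (by omega) (by omega)
  have e3 := h2 j hj5 hj6 (by omega) (by omega)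
  rw [if_neg hcon.2] at e1
  rw [Nat.add_sub_cancel, if_neg hcon.1, show j + 1 + 1 = j + 2 by ring] at e2
  obtain ⟨x1, e1⟩ := e1
  obtain ⟨x2, e2⟩ := e2
  obtain ⟨x3, e3⟩ := e3
  omega

theorem pf_ARI : T_ARI := by
  intro p q P hpos hcon hTO hTp hTq hZZ
  by_contra hno
  have hE : ∀ δ, P δ → Even δ := by
    intro δ hδ
    by_contra hodd
    rw [Int.not_even_iff_odd] at hodd
    exact hno ⟨δ, hδ, hodd⟩
  have Ap := ari_aux p (fun i h1 h2 => (hpos i h1 h2).1)
    (fun i h1 h2 => hE _ (hTO i h1 h2).1) (fun i h1 h2 h3 h4 => hE _ (hTp i h1 h2 h3 h4))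
  have Aq := ari_aux q (fun i h1 h2 => (hpos i h1 h2).2.1)
    (fun i h1 h2 => hE _ (hTO i h1 h2).2) (fun i h1 h2 h3 h4 => hE _ (hTq i h1 h2 h3 h4))
  obtain ⟨k, hk, hpk⟩ : ∃ k, (k = 6 ∨ k = 7) ∧ p (k + 3) = 1 := by
    rcases Ap 9 (by norm_num) (by norm_num) with h | h
    · exact ⟨6, Or.inl rfl, h⟩
    · exact ⟨7, Or.inr rfl, h⟩
  have h3 := hpos (k + 3) (by omega) (by omega)
  have hq3 : ¬ q (k + 3) = 1 := by omega
  have hq2 : q (k + 2) = 1 := by
    rcases Aq (k + 2) (by omega) (by omega) with h | h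
    · exact h
    · exact absurd h hq3
  have hq1 : ¬ q (k + 1) = 1 := by
    intro h
    exact (hcon (k + 1) (by omega) (by omega)).2 ⟨h, hq2⟩
  have hq0 : q k = 1 := by
    rcases Aq k (by omega) (by omega) with h | h
    · exact h
    · exact absurd h hq1
  have e1 := hE _ (hTO (k + 1) (by omega) (by omega)).2
  rw [Nat.add_sub_cancel, if_pos hq0, show k + 1 + 1 = k + 2 by ring, if_pos hq2] at e1
  have e2 := hE _ (hZZ (k + 3) (by omega) (by omega) hpk (by
    rw [show k + 3 - 3 = k by omega]; exact hq0))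
  rw [show k + 3 - 2 = k + 1 by omega] at e2
  obtain ⟨x1, e1⟩ := e1
  obtain ⟨x2, e2⟩ := e2
  omega

theorem pf_PAR (h1 : T_FRM) (h2 : T_SDF) (h3 : T_TO) (h4 : T_TT) (h5 : T_ZZ) (h6 : T_ARI) :
    T_PAR := by
  intro F T z hz hA
  obtain ⟨p, c, q, r, hp, hq, hpq, hcr⟩ := h1 F T 20 z hz hA
  have s1 := (h2 F T 20 z p c hz hp).2.2.2.1
  have s2 := (h2 F T 20 z q r hz hq).2.2.2.1
  exact h6 p q (Mv T 20 z)
    (fun i hi hi' => ⟨hp.pos i hi hi', hq.pos i hi hi', hpq i hi hi'⟩)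
    (fun i hi hi' => ⟨s1 i hi hi', s2 i hi hi'⟩)
    (fun i hi hi' => ⟨h3 F T 20 z p c hz hp i hi hi', h3 F T 20 z q r hz hq i hi hi'⟩)
    (fun i hi hi' a b => h4 F T 20 z p c hz hp i hi hi' a b)
    (fun i hi hi' a b => h4 F T 20 z q r hz hq i hi hi' a b)
    (fun i hi hi' a b => h5 F T 20 z p c q r hz hp hq hcr i hi hi' a b)

theorem pf_KE1 (h1 : T_SHC) (h2 : T_OTH) (h3 : T_CWK) : T_KE1 := by
  intro F T ω w t i S z m hw hSh hMn ht hPot hN
  obtain ⟨n, c, hc, hwn, hcX, hcs⟩ := h1 F T ω _ w hw hSh hN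
  refine ⟨n, c, hc, hwn, hcs, fun x => hcX x, ?_⟩
  intro j hj hjm
  by_contra hno
  rw [not_exists] at hno
  obtain ⟨γ, hγ, -, -⟩ := h2 F T ω ω t (3 * i + 1) S (fun _ => 0) z m j hSh.1 hSh.1 hMn
    (by omega) (by omega) hPot (by omega) (by omega)
  obtain ⟨p, hp1, hp2⟩ := h3 F T n c hc
  have h4 := null_of_pot T hγ (c 0) p (by
    intro y hy
    obtain ⟨x, rfl⟩ := hp1 y hy
    exact ⟨(hcX x).1, fun h => hno x h⟩)
  rw [hp2, hcs] at h4
  exact one_ne_zero h4

theorem pf_KE2 (h1 : T_OTH) (h2 : T_NBH) (h3 : T_WIN) : T_KE2 := by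
  intro F T ω t i S z m n c hSy hMn ht hm hn hc hcX hcz
  obtain ⟨hN1, -, -, -⟩ := h2 F T ω (3 * i + 1) S z m hSy hMn
  obtain ⟨c', hc', hr, hs, hw⟩ := h3 F T n c z (3 * i + 3) 20 hc (by omega)
    (hcz (3 * i + 3) le_rfl (by omega)) (by
      intro j hj x hadj
      exact hN1 (3 * i + 3 + j) (by omega) (by omega) (c x) (hcX x) hadj)
  refine ⟨c', hc', hr, hs, hw, ?_⟩
  intro D g hD hPot
  obtain ⟨γ, hγ, hγ1, hγ2⟩ := h1 F T D ω t (3 * i + 1) S g z m (3 * i + 4) hD hSy hMn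
    (by omega) (by omega) hPot (by omega) (by omega)
  have w0 : c' 0 = z (3 * i + 3) := by simpa using hw 0 (by omega)
  have w1 : c' 1 = z (3 * i + 4) := by simpa using hw 1 (by omega)
  have w2 : c' 2 = z (3 * i + 5) := by simpa using hw 2 (by omega)
  obtain ⟨k, rfl⟩ : ∃ k, n = k + 2 := ⟨n - 2, by omega⟩
  have hin : ∀ y : ℕ, 2 ≤ y → y ≤ k + 2 →
      c' (y : ℤ) ∈ (Nb T (3 * i + 1) S ∪ Im z m) \ {z (3 * i + 4)} := by
    intro y hy hyk
    obtain ⟨x, hx⟩ := (hr (c' (y : ℤ))).1 ⟨y, rfl⟩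
    refine ⟨?_, ?_⟩
    · rw [← hx]; exact hcX x
    · intro h
      have h4 : c' (y : ℤ) = c' 1 := by rw [w1]; exact h
      rw [hc'.eqv] at h4
      have h5 := Int.le_of_dvd (by omega) h4
      push_cast at h5
      omega
  have hsum : ∀ j, j ≤ k → ∑ x ∈ Finset.range j, D (c' ((x : ℤ) + 2)) (c' ((x : ℤ) + 2 + 1)) =
      γ (c' 2) + γ (c' ((j : ℤ) + 2)) := by
    intro j
    induction j with
    | zero => intro _; simp [R2]
    | succ j ih =>
      intro hj
      rw [Finset.sum_range_succ, ih (by omega)]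
      have hm1 := hin (j + 2) (by omega) (by omega)
      have hm2 := hin (j + 3) (by omega) (by omega)
      have hadj : T.Adj (c' ((j + 2 : ℕ) : ℤ)) (c' ((j + 3 : ℕ) : ℤ)) := by
        apply (hc'.adj _ _).2
        right
        have : (((j + 3 : ℕ) : ℤ) - ((j + 2 : ℕ) : ℤ) - 1) = 0 := by push_cast; ring
        rw [this]
        exact dvd_zero _
      have h4 := hγ _ hm1 _ hm2 hadj
      have e1 : ((j + 2 : ℕ) : ℤ) = (j : ℤ) + 2 := by push_cast; ring
      have e2 : ((j + 3 : ℕ) : ℤ) = (j : ℤ) + 2 + 1 := by push_cast; ring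
      have e3 : (((j + 1 : ℕ) : ℤ) + 2) = (j : ℤ) + 2 + 1 := by push_cast; ring
      rw [e1, e2] at h4
      rw [e3, h4]
      linear_combination R2 (γ (c' ((j : ℤ) + 2)))
  have hcs : cs D (k + 2) c' = D (c' 0) (c' 1) + D (c' 1) (c' 2) +
      ∑ x ∈ Finset.range k, D (c' ((x : ℤ) + 2)) (c' ((x : ℤ) + 2 + 1)) := by
    unfold cs
    rw [Finset.sum_range_succ', Finset.sum_range_succ']
    have e1 : ∑ x ∈ Finset.range k, D (c' ((x + 1 + 1 : ℕ) : ℤ)) (c' (((x + 1 + 1 : ℕ) : ℤ) + 1)) =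
        ∑ x ∈ Finset.range k, D (c' ((x : ℤ) + 2)) (c' ((x : ℤ) + 2 + 1)) := by
      apply Finset.sum_congr rfl
      intro x _
      have : ((x + 1 + 1 : ℕ) : ℤ) = (x : ℤ) + 2 := by push_cast; ring
      rw [this]
    rw [e1]
    simp only [Nat.cast_zero, zero_add, Nat.cast_one]
    norm_num
    ring
  have hlast : c' ((k : ℤ) + 2) = c' 0 := by
    rw [hc'.eqv, sub_zero]
    push_cast
    exact dvd_refl _
  rw [hcs, hsum k le_rfl, hlast, w0, w1, w2]
  have e1 : 3 * i + 4 - 1 = 3 * i + 3 := by omega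
  have e2 : 3 * i + 4 + 1 = 3 * i + 5 := by omega
  rw [e1] at hγ1
  rw [e2] at hγ2
  rw [hγ1, hγ2]
  have f1 : fs D z 0 m = fs D z 0 (3 * i + 3) + fs D z (3 * i + 3) m :=
    fs_split D z (by omega) (by omega)
  have f2 : fs D z (3 * i + 3) m = fs D z (3 * i + 3) (3 * i + 4) + fs D z (3 * i + 4) m :=
    fs_split D z (by omega) (by omega)
  have f3 : fs D z (3 * i + 4) m = fs D z (3 * i + 4) (3 * i + 5) + fs D z (3 * i + 5) m :=
    fs_split D z (by omega) (by omega)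
  have f4 : fs D z (3 * i + 3) (3 * i + 4) = D (z (3 * i + 3)) (z (3 * i + 4)) := fs_one D z _
  have f5 : fs D z (3 * i + 4) (3 * i + 5) = D (z (3 * i + 4)) (z (3 * i + 5)) := fs_one D z _
  rw [f1, f2, f3, f4, f5]
  ring

end Pool.Agent.H91.OLP
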